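import Pool.Agent.X308.E.Main

/-!
# Homologically trivial one-cycles on products of curves and of surfaces with finite-dimensional
motive

`𝒱` is a class of smooth projective geometrically irreducible varieties over the field `k` closed
under products (for the problem: all smooth projective varieties over `k = ℂ`), `C` the Chow groups
with rational coefficients, in the form of their formal properties (`IsChowProj`) and of known
properties of curves and divisors (`CurveProperties`: zero-cycles of degree zero are algebraically
trivial, one-cycles are spanned by the classes `f_* [T]` for curves `T`, the motives `h^1(T)` of
curves are oddly finite-dimensional; `DivisorProperty`: homologically trivial divisors are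
algebraically trivial), and `H` is a Weil cohomology theory.

`CurvesAndEven C X` says that the diagonal of `X` is a sum `d + c + t` of a sum `d` of external
products, of a sum `c` of correspondences which factor through the motives `h^1(T)` of curves `T`, and
of an evenly finite-dimensional correspondence `t` (some exterior power of `t` vanishes). This holds
for curves (`t = 0`), for the surfaces whose motive is finite-dimensional in the sense of Kimura (`t`
is the projector onto the transcendental motive `t_2`), and for the varieties of higher dimension
whose motive is a sum of Tate twists of such motives (for example threefolds with representable Chow
groups of zero-cycles).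

Theorem. Let `P` be the product of varieties `X_0, …, X_{n+1}` with this property, where each `X_i` is
of dimension at most two, or its homologically trivial one-cycles are smash-nilpotent. Then the
homologically trivial one-cycles on `P` are smash-nilpotent.

Steps of the proof. (1) A one-cycle on a product is smash-nilpotent if its push-forwards to the
products of two factors are; this uses that the modified small diagonal of a curve is smash-nilpotent.
(2) Consider a homologically trivial one-cycle `a` on `X × Y` modulo a prime adequate equivalence
relation. It is a combination of graphs of curves, restricted to `h^1`; so the even part of `X` does
not contribute, since there are no morphisms from an odd to an even finite-dimensional motive, nor do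
the external products. So `a` is the image of homologically trivial one-cycles and zero-cycles on
`T × Y` for curves `T`, and in the same way one arrives at cycles on products of two curves.
-/

set_option autoImplicit false

open CategoryTheory AlgebraicGeometry

universe u v w

namespace Pool.Agent.Results.MP_bf8edd_ag.CurvesAndEvenMotives

open Pool.Agent.H914 Pool.Agent.H914.VarClass Pool.Agent.H914.VarClass.Obj Pool.Agent.W492.BB
  Pool.Agent.TH133 Pool.Agent.TH829.Prime Pool.Agent.X308.V Pool.Agent.X308.A Pool.Agent.X308.E

/-- Let `P` be the product of at least two varieties `X i` whose motive comes from curves, up to an
evenly finite-dimensional part, and which are of dimension at most two or have the property that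
homologically trivial one-cycles on `X i` are smash-nilpotent. Then homologically trivial one-cycles
on `P` are smash-nilpotent. -/
theorem result {k : Type u} [Field k] {𝒱 : VarClass k} (C : TheoryData.{u, v, 0} 𝒱 ℚ)
    [IsChowProj C] {K : Type w} [Field K] (H : WeilTheoryData.{u, v, w} C K) [IsWeilProj H]
    (hC : CurveProperties C) (hD : DivisorProperty H) {n : ℕ} {X : Fin (n + 2) → 𝒱.Obj}
    {P : 𝒱.Obj} {pr : ∀ i, P ⟶ X i} (hpr : IsProduct pr) (hX : ∀ i, CurvesAndEven C (X i))
    (h : ∀ i, (X i).dim ≤ 2 ∨ OneCyclesNilpotent H (X i)) : OneCyclesNilpotent H P :=
  product' hC hD hpr hX h

end Pool.Agent.Results.MP_bf8edd_ag.CurvesAndEvenMotives
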