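import Pool.Agent.X252.SH

/-!
# Homologically trivial cycles modulo smash-nilpotent ones and finite groups of automorphisms

Let the finite group `G` act on the smooth projective variety `X`, and fix a codimension `i`. The
homologically trivial cycles of codimension `i` (with rational coefficients) modulo the smash-nilpotent
ones are a rational representation `B(X)` of `G`, and for a subgroup `H` its invariants are `B(X / H)`.
Voevodsky's conjecture says that `B(X) = 0`. We draw the consequences from the structure of the
two-sided ideals of the rational group ring.

* If every irreducible rational representation of `G` which occurs in `B(X)` and has a nonzero vector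
  fixed by `H` has for some `j` a nonzero vector fixed by `D_j`, and the conjecture holds for the
  quotients `X / D_j`, then it holds for `X / H`.
* If `c` is an involution in `G`, then it holds for `X` if and only if it holds for `X / c` and for
  `X / [G, c]`; if `c` is contained in a nonabelian simple subgroup of `G`, if and only if it holds
  for `X / c`.
* If a subgroup of `G` is partitioned into at least two subgroups `D_j`, then it holds for `X` if and
  only if it holds for all `X / D_j`.
* If it fails for `X` but holds for the quotients of `X` by all subgroups of prime order, then a fixed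
  point free irreducible rational representation of `G` occurs in `B(X)` (and `G` is a Frobenius
  complement), the subgroups of order `p q` and the commutative subgroups of `G` are cyclic and `G` has
  at most one involution.
-/

set_option autoImplicit false

open CategoryTheory AlgebraicGeometry

universe u v w

namespace Pool.Agent.Results.MP_bf8edd_ag.FiniteGroups

open Pool.Agent.H914 Pool.Agent.W492.BB Pool.Agent.TH133 Pool.Agent.X252.GC Pool.Agent.X252.SH
  Pool.Agent.X310.Mu

/-- **Theorem.** Voevodsky's conjecture on the homologically trivial cycles of codimension `i` on `X`
and on the quotients of `X` by the subgroups of a finite group of automorphisms. -/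
theorem result {k : Type u} [Field k] {𝒱 : VarClass k} (C : TheoryData.{u, v, 0} 𝒱 ℚ)
    [IsChowProj C] {K : Type w} [Field K] (W : WeilTheoryData.{u, v, w} C K) [IsWeilProj W]
    (X : 𝒱.Obj) {G : Type} [Group G] [Fintype G] (ρ : G →* Aut X) (i : ℤ) :
    (∀ (H : Subgroup G) (ι : Type) (D : ι → Subgroup G), DominatedMod W ρ i H D →
      (∀ j, HomSmashQuot W ρ (D j) i) → HomSmashQuot W ρ H i) ∧
    (∀ c : G, c * c = 1 → (HomSmash W X i ↔
      HomSmashQuot W ρ (Subgroup.zpowers c) i ∧ HomSmashQuot W ρ (comms c) i)) ∧
    (∀ c : G, InSimple c → c ≠ 1 → c * c = 1 →
      (HomSmash W X i ↔ HomSmashQuot W ρ (Subgroup.zpowers c) i)) ∧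
    (∀ (ι : Type) (D : ι → Subgroup G) (K : Subgroup G), Partitions K D →
      (HomSmash W X i ↔ ∀ j, HomSmashQuot W ρ (D j) i)) ∧
    (¬ HomSmash W X i → (∀ P : Subgroup G, (Nat.card P).Prime → HomSmashQuot W ρ P i) →
      FreeMod W ρ i ∧ CyclicSubgroups G) :=
  main' ρ i

end Pool.Agent.Results.MP_bf8edd_ag.FiniteGroups
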