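import Pool.Agent.X308.A.Main

/-!
# Homologically trivial one-cycles on products: reduction to the products with curves

`𝒱` is a class of smooth projective geometrically irreducible varieties over the field `k` closed
under products (for the problem: all smooth projective varieties over `k = ℂ`), `C` the Chow groups
with rational coefficients, in the form of their formal properties (`IsChowProj`) and of known
properties which concern curves (`CurveProperties`: zero-cycles of degree zero are algebraically
trivial, one-cycles are spanned by the classes `f_* [T]` for curves `T`, the motives `h^1(T)` of
curves are oddly finite-dimensional), and `H` is a Weil cohomology theory.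

Theorem. Let `P` be the product of varieties `X_0, …, X_n` which have an Albanese projector (this is
known for all smooth projective varieties). If for each `i` and each curve `T` the homologically
trivial one-cycles on `X_i × T` are smash-nilpotent, then the homologically trivial one-cycles on `P`,
and on `P × T` for all curves `T`, are smash-nilpotent.

So the conjecture of Voevodsky for one-cycles on arbitrary products follows from the case of the
products of single factors and curves (for products of surfaces: from the case of the threefolds
`S × T`).

Steps of the proof. (1) A one-cycle on a product is smash-nilpotent if its push-forwards to the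
products of two factors are; this uses that the modified small diagonal of a curve is smash-nilpotent.
(2) Let `a` be a homologically trivial one-cycle on `X × Y`, and consider cycles modulo a prime
adequate equivalence relation. For a curve `g : T ⟶ Y` the restriction of the graph of `g` to `h^1(T)`
differs from its composition with the Albanese projector of `Y` by a homologically trivial one-cycle
on `T × Y`; so `a` does not change when it is composed with the Albanese projector, which factors
through a curve `T`; hence `a` is the image of a homologically trivial one-cycle on `X × T`.
-/

set_option autoImplicit false

open CategoryTheory AlgebraicGeometry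

universe u v w

namespace Pool.Agent.Results.MP_bf8edd_ag.ProductsOfVarieties

open Pool.Agent.H914 Pool.Agent.H914.VarClass Pool.Agent.H914.VarClass.Obj Pool.Agent.W492.BB
  Pool.Agent.TH133 Pool.Agent.TH829.Prime Pool.Agent.X308.V Pool.Agent.X308.A

/-- Let `P` be the product of the varieties `X i` which have an Albanese projector and such that the
homologically trivial one-cycles on `X i × T` are smash-nilpotent for all curves `T`. Then the
homologically trivial one-cycles on `P`, and on `P × T` for all curves `T`, are smash-nilpotent. -/
theorem result {k : Type u} [Field k] {𝒱 : VarClass k} (C : TheoryData.{u, v, 0} 𝒱 ℚ)
    [IsChowProj C] {K : Type w} [Field K] (H : WeilTheoryData.{u, v, w} C K) [IsWeilProj H]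
    (hC : CurveProperties C) {n : ℕ} {X : Fin (n + 1) → 𝒱.Obj} {P : 𝒱.Obj} {pr : ∀ i, P ⟶ X i}
    (hpr : IsProduct pr) (hA : ∀ i, AlbaneseProperty H (X i))
    (h : ∀ i, ∀ T : 𝒱.Obj, T.dim = 1 → OneCyclesNilpotent H ((X i).prod T)) :
    OneCyclesNilpotent H P ∧ ∀ T : 𝒱.Obj, T.dim = 1 → OneCyclesNilpotent H (P.prod T) :=
  product hC hpr hA h

end Pool.Agent.Results.MP_bf8edd_ag.ProductsOfVarieties
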