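import Pool.Agent.X312.CH.Smash
import Pool.Agent.X312.CH.PairMot

/-!
# A gap law for homologically trivial cycles modulo smash-nilpotent cycles on `M ⊗ h(X ^ n)`

Let `M` be **any** Chow motive and `X` a smooth projective variety over the field of complex
numbers, such that the numerically trivial self-correspondences of the powers of `X` are nilpotent
(by Kimura this holds if the Chow motive of `X` is finite-dimensional) and such that homological
and numerical equivalence agree on the powers of `X`; both are known for products of curves and
for abelian varieties. Let `ρ(Z)` be the rank of the cycles of all codimensions on `Z` modulo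
numerical equivalence, and `b` the sum of the Betti numbers of `X`. For all `m ≥ 1`: **all
homologically trivial cycles on** `M ⊗ h(X ^ m)` **are smash-nilpotent, or**

`dim {homologically trivial cycles on M ⊗ h(X ^ n)} / {smash-nilpotent cycles} ≥ (1 - 4 (m + 3) b
^ (m + 5) log (n + 1) / n) ρ(X ^ n)`

**for all** `n ≥ 1` (all codimensions together, rational coefficients; the left hand side may be
infinite). So one homologically trivial cycle on some `M ⊗ h(X ^ m)` which is not smash-nilpotent
forces almost `ρ(X ^ n)` of them, independent modulo smash-nilpotent cycles, on all the motives `M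
⊗ h(X ^ n)`. For example let `X = Y = C` be the generic curve of genus `3`: the conjecture is open
for the powers of `C`.

The proof. For `Z` a power of `X` let `N(Z)` be the space of the cycles in question on `Y × Z`;
the correspondences between powers of `X` act on these spaces. Modulo numerical equivalence the
self-correspondences of `P = X ^ m` form a finite-dimensional algebra, and the numerically trivial
ones are nilpotent, so that idempotents can be lifted. If `N(P) ≠ 0`, one takes an idempotent
correspondence `g` on `P` of minimal rank with `g N(P) ≠ 0` and an element `z ≠ 0` of `g N(P)`.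
The correspondences `x` with `x z = 0` have a nilpotent compression `g x g`, so the trace of `g x`
vanishes, and so `dim N(Z)` is at least the rank of the trace form `(u, v) ↦ tr (g v u)`; for `Z =
X ^ n` this rank is compared with `ρ(X ^ n)` by the log-convexity of the sequence of the ranks of
the intersection forms and by the symmetric group.
-/

set_option autoImplicit false

open CategoryTheory AlgebraicGeometry

universe u v

namespace Pool.Agent.Results.MP_bf8edd_ag.SmashNilpotenceGap

open Pool.Agent.H914 VarClass Obj WeilCohomology
open Pool.Agent.W492.BB (TheoryData)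
open Pool.Agent.X312.CH (CycleTheory IndepMod xpow SmashNil ccomp)
open Pool.Agent.Y133.Half (pw cycRank)

variable {k : Type u} [Field k] {𝒱 : VarClass k} {ops : CycleOps 𝒱}
  {W : WeilCohomology.{u, v} ops} {C : TheoryData.{u, 0, 0} 𝒱 ℚ}

/-- The sum of the Betti numbers of `X`. -/
noncomputable def totalBetti (W : WeilCohomology.{u, v} ops) (X : 𝒱.Obj) : ℕ :=
  Module.finrank W.K (W.H X)

/-- The cycle `a` on `Y × Z` belongs to the Chow group of the motive `M ⊗ h(Z)`, where `M` is the dual of
`(Y, e)`: the correspondence `a` from `Y` to `Z` satisfies `a ∘ e = a`. -/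
def OnMotive (C : TheoryData.{u, 0, 0} 𝒱 ℚ) {Y Z : 𝒱.Obj} (e : C.A (Y.prod Y))
    (a : C.A (Y.prod Z)) : Prop :=
  ccomp C e a = a

/-- **The gap law for Voevodsky's conjecture.** Here `pw X m` is the product of `m + 1` copies of `X`,
and `IndepMod S T x` says that there are at least `x` elements of `S` which are linearly independent
modulo the subspace generated by `T`. -/
theorem result (𝓣 : CycleTheory W C) (X Y : 𝒱.Obj) (e : C.A (Y.prod Y)) (_he : ccomp C e e = e)
    (hX : ∀ n : ℕ, 𝓣.NumNil (pw X n)) (hD : ∀ n : ℕ, HomEqNum W (pw X n)) (m : ℕ) :
    (∀ a : C.A (Y.prod (pw X m)), OnMotive C e a → 𝓣.cl _ a = 0 →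
      a ∈ Submodule.span ℚ {c | SmashNil C c}) ∨
    ∀ n : ℕ, IndepMod {a : C.A (Y.prod (pw X n)) | OnMotive C e a ∧ 𝓣.cl _ a = 0}
      {c : C.A (Y.prod (pw X n)) | SmashNil C c}
      ((1 - 4 * (m + 4) * (totalBetti W X : ℝ) ^ (m + 6) * Real.log (n + 2) / (n + 1)) *
        cycRank ops (pw X n)) := by
  rcases Pool.Agent.X312.CH.pair_mot_law 𝓣 X Y e hX hD (Pool.Agent.X312.CH.smash_stable 𝓣)
    (Pool.Agent.X312.CH.homTriv_stable) m with h | h
  · exact Or.inl fun a h1 h2 => h a h2 h1
  · right
    intro n
    obtain ⟨N, a, h1, h2, h3⟩ := h n
    rw [Submodule.span_eq] at h2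
    exact ⟨N, a, h1, h2, fun i => ⟨(h3 i).2, (h3 i).1⟩⟩

end Pool.Agent.Results.MP_bf8edd_ag.SmashNilpotenceGap
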